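import Mathlib

/-! A Kakeya set of `ℝ ^ n` projects to a Kakeya set of `ℝ ^ m`, `m ≤ n`: lower bounds of the Hausdorff dimension of
Kakeya sets lift to higher dimensions. -/

set_option autoImplicit false

namespace Pool.Agent.Helper96.MD

open scoped NNReal

/-- the first `m` coordinates -/
def prj {m n : ℕ} (h : m ≤ n) (x : EuclideanSpace ℝ (Fin n)) : EuclideanSpace ℝ (Fin m) :=
  WithLp.toLp 2 fun i => x (Fin.castLE h i)

/-- the vector with zero coordinates from `m` on -/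
def inc {m n : ℕ} (x : EuclideanSpace ℝ (Fin m)) : EuclideanSpace ℝ (Fin n) :=
  WithLp.toLp 2 fun i => if h : (i : ℕ) < m then x ⟨i, h⟩ else 0

theorem prj_inc {m n : ℕ} (h : m ≤ n) (x : EuclideanSpace ℝ (Fin m)) : prj h (inc x : EuclideanSpace ℝ (Fin n)) = x := by
  ext i
  simp [prj, inc]

theorem prj_add {m n : ℕ} (h : m ≤ n) (x y : EuclideanSpace ℝ (Fin n)) : prj h (x + y) = prj h x + prj h y := by
  ext i
  simp [prj]

theorem prj_smul {m n : ℕ} (h : m ≤ n) (t : ℝ) (x : EuclideanSpace ℝ (Fin n)) : prj h (t • x) = t • prj h x := by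
  ext i
  simp [prj]

theorem norm_prj_le {m n : ℕ} (h : m ≤ n) (x : EuclideanSpace ℝ (Fin n)) : ‖prj h x‖ ≤ ‖x‖ := by
  rw [EuclideanSpace.norm_eq, EuclideanSpace.norm_eq]
  apply Real.sqrt_le_sqrt
  have h1 : ∑ i : Fin m, ‖prj h x i‖ ^ 2 = ∑ i ∈ (Finset.univ : Finset (Fin m)).map (Fin.castLEEmb h), ‖x i‖ ^ 2 := by
    rw [Finset.sum_map]
    rfl
  rw [h1]
  exact Finset.sum_le_sum_of_subset_of_nonneg (Finset.subset_univ _) fun i _ _ => by positivity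

theorem norm_inc {m n : ℕ} (h : m ≤ n) (x : EuclideanSpace ℝ (Fin m)) : ‖(inc x : EuclideanSpace ℝ (Fin n))‖ = ‖x‖ := by
  rw [EuclideanSpace.norm_eq, EuclideanSpace.norm_eq]
  congr 1
  have h1 : ∑ i : Fin m, ‖x i‖ ^ 2 = ∑ i ∈ (Finset.univ : Finset (Fin m)).map (Fin.castLEEmb h),
      ‖(inc x : EuclideanSpace ℝ (Fin n)) i‖ ^ 2 := by
    rw [Finset.sum_map]
    refine Finset.sum_congr rfl fun i _ => ?_
    simp [inc]
  rw [h1]
  symm
  apply Finset.sum_subset (Finset.subset_univ _)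
  intro i _ hi
  have h2 : ¬ (i : ℕ) < m := by
    intro h3
    apply hi
    rw [Finset.mem_map]
    exact ⟨⟨i, h3⟩, Finset.mem_univ _, by ext; simp⟩
  simp [inc, h2]

theorem prj_lip {m n : ℕ} (h : m ≤ n) : LipschitzWith 1 (prj h : EuclideanSpace ℝ (Fin n) → EuclideanSpace ℝ (Fin m)) := by
  apply LipschitzWith.of_dist_le_mul
  intro x y
  rw [dist_eq_norm, dist_eq_norm, NNReal.coe_one, one_mul]
  have h1 : prj h x - prj h y = prj h (x - y) := by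
    ext i
    simp [prj]
  rw [h1]
  exact norm_prj_le h _

/-- the projection of a set with unit segments in all directions -/
theorem prj_kakeya {m n : ℕ} (h : m ≤ n) {K : Set (EuclideanSpace ℝ (Fin n))}
    (hK : ∀ e : EuclideanSpace ℝ (Fin n), ‖e‖ = 1 → ∃ p, ∀ t : ℝ, 0 ≤ t → t ≤ 1 → p + t • e ∈ K)
    (e : EuclideanSpace ℝ (Fin m)) (he : ‖e‖ = 1) : ∃ p, ∀ t : ℝ, 0 ≤ t → t ≤ 1 → p + t • e ∈ prj h '' K := by
  obtain ⟨p, hp⟩ := hK (inc e) (by rw [norm_inc h, he])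
  refine ⟨prj h p, fun t h0 h1 => ⟨_, hp t h0 h1, ?_⟩⟩
  rw [prj_add, prj_smul, prj_inc]

/-- LIFT: a bound for the Hausdorff dimension of Kakeya sets of `ℝ ^ m` holds for Kakeya sets of `ℝ ^ n`, `m ≤ n` -/
theorem dimH_lift {m n : ℕ} (h : m ≤ n) {d : ENNReal}
    (H : ∀ K : Set (EuclideanSpace ℝ (Fin m)),
      (∀ e : EuclideanSpace ℝ (Fin m), ‖e‖ = 1 → ∃ p, ∀ t : ℝ, 0 ≤ t → t ≤ 1 → p + t • e ∈ K) → d ≤ dimH K)
    (K : Set (EuclideanSpace ℝ (Fin n)))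
    (hK : ∀ e : EuclideanSpace ℝ (Fin n), ‖e‖ = 1 → ∃ p, ∀ t : ℝ, 0 ≤ t → t ≤ 1 → p + t • e ∈ K) : d ≤ dimH K :=
  (H _ (prj_kakeya h hK)).trans ((prj_lip h).dimH_image_le K)

end Pool.Agent.Helper96.MD
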