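import Mathlib

/-! From the Hausdorff dimension to the volume of neighbourhoods (lower Minkowski dimension): if a bounded set `K` of
`R^n` has Hausdorff dimension greater than `s > 0`, then the volume of its `δ`-neighbourhood is at least `c δ ^ (n - s)`. -/

set_option autoImplicit false

namespace Pool.Agent.Helper96.MD

open MeasureTheory Metric Set Filter Topology ENNReal

noncomputable section

variable {n : ℕ}

/-- separated finite subsets and the volume -/
theorem card_le (K : Set (EuclideanSpace ℝ (Fin n))) {δ : ℝ} (hδ : 0 < δ) (F : Finset (EuclideanSpace ℝ (Fin n)))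
    (hF : ∀ x ∈ F, x ∈ K) (hs : ∀ x ∈ F, ∀ y ∈ F, x ≠ y → δ ≤ dist x y) :
    (F.card : ℝ≥0∞) * (ENNReal.ofReal ((δ / 2) ^ n) * volume (ball (0 : EuclideanSpace ℝ (Fin n)) 1)) ≤
      volume (thickening δ K) := by
  have h1 : ∀ x ∈ F, volume (ball x (δ / 2)) = ENNReal.ofReal ((δ / 2) ^ n) * volume (ball (0 : EuclideanSpace ℝ (Fin n)) 1) := by
    intro x _
    have h := Measure.addHaar_ball_of_pos (volume : Measure (EuclideanSpace ℝ (Fin n))) x (r := δ / 2) (by positivity)
    rwa [finrank_euclideanSpace_fin] at h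
  have h2 : volume (⋃ x ∈ F, ball x (δ / 2)) = ∑ x ∈ F, volume (ball x (δ / 2)) := by
    apply measure_biUnion_finset
    · intro x hx y hy hxy
      apply ball_disjoint_ball
      have := hs x hx y hy hxy
      linarith
    · exact fun x _ => measurableSet_ball
  rw [Finset.sum_congr rfl h1, Finset.sum_const, nsmul_eq_mul] at h2
  rw [← h2]
  apply measure_mono
  intro z hz
  simp only [mem_iUnion] at hz
  obtain ⟨x, hx, hz⟩ := hz
  rw [mem_thickening_iff]
  refine ⟨x, hF x hx, ?_⟩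
  rw [mem_ball] at hz
  linarith

theorem ediam_cb (x : EuclideanSpace ℝ (Fin n)) {δ : ℝ} (hδ : 0 ≤ δ) : ediam (closedBall x δ) ≤ ENNReal.ofReal (2 * δ) := by
  rw [← Metric.closedEBall_ofReal hδ, ENNReal.ofReal_mul (by norm_num), ENNReal.ofReal_ofNat]
  exact ediam_closedEBall_le

/-- a finite net with at most the right number of points -/
theorem exists_net (K : Set (EuclideanSpace ℝ (Fin n))) (hb : Bornology.IsBounded K) {δ : ℝ} (hδ : 0 < δ) :
    ∃ F : Finset (EuclideanSpace ℝ (Fin n)), K ⊆ (⋃ x ∈ F, closedBall x δ) ∧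
      (F.card : ℝ≥0∞) * (ENNReal.ofReal ((δ / 2) ^ n) * volume (ball (0 : EuclideanSpace ℝ (Fin n)) 1)) ≤
        volume (thickening δ K) := by
  classical
  have hv : volume (thickening δ K) ≠ ∞ := (hb.thickening).measure_lt_top.ne
  have hV : 0 < volume (ball (0 : EuclideanSpace ℝ (Fin n)) 1) := measure_ball_pos _ _ one_pos
  obtain ⟨a, ha⟩ : ∃ a, a = ENNReal.ofReal ((δ / 2) ^ n) * volume (ball (0 : EuclideanSpace ℝ (Fin n)) 1) := ⟨_, rfl⟩
  have ha0 : a ≠ 0 := by
    rw [ha]
    exact mul_ne_zero (by rw [Ne, ENNReal.ofReal_eq_zero, not_le]; positivity) hV.ne'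
  have hat : a ≠ ∞ := by
    rw [ha]
    exact ENNReal.mul_ne_top ENNReal.ofReal_ne_top measure_ball_lt_top.ne
  obtain ⟨N, hN⟩ : ∃ N : ℕ, volume (thickening δ K) / a < N := ENNReal.exists_nat_gt (ENNReal.div_ne_top hv ha0)
  let P : ℕ → Prop := fun m => ∃ F : Finset (EuclideanSpace ℝ (Fin n)), F.card = m ∧ (∀ x ∈ F, x ∈ K) ∧
    ∀ x ∈ F, ∀ y ∈ F, x ≠ y → δ ≤ dist x y
  have hP0 : P 0 := ⟨∅, rfl, by simp, by simp⟩
  have hPN : ∀ m, P m → m ≤ N := by
    rintro m ⟨F, hc, h1, h2⟩
    have h3 := card_le K hδ F h1 h2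
    rw [← ha, hc] at h3
    have h4 : (m : ℝ≥0∞) ≤ volume (thickening δ K) / a := by
      rwa [ENNReal.le_div_iff_mul_le (Or.inl ha0) (Or.inl hat)]
    have h5 : (m : ℝ≥0∞) < N := lt_of_le_of_lt h4 hN
    exact_mod_cast h5.le
  obtain ⟨F, hc, h1, h2⟩ : P (Nat.findGreatest P N) := Nat.findGreatest_spec (P := P) (Nat.zero_le N) hP0
  refine ⟨F, ?_, card_le K hδ F h1 h2⟩
  intro x hx
  by_contra hn
  simp only [mem_iUnion, mem_closedBall, not_exists, not_le] at hn
  have hxF : x ∉ F := by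
    intro h
    have := hn x h
    rw [dist_self] at this
    linarith
  have h3 : P (Nat.findGreatest P N + 1) := by
    refine ⟨insert x F, ?_, ?_, ?_⟩
    · rw [Finset.card_insert_of_notMem hxF, hc]
    · intro y hy
      rcases Finset.mem_insert.1 hy with rfl | hy
      · exact hx
      · exact h1 y hy
    · intro y hy z hz hyz
      rcases Finset.mem_insert.1 hy with ey | hy
      · rcases Finset.mem_insert.1 hz with ez | hz
        · exact absurd (ey.trans ez.symm) hyz
        · rw [ey]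
          exact (hn z hz).le
      · rcases Finset.mem_insert.1 hz with ez | hz
        · rw [ez, dist_comm]
          exact (hn y hy).le
        · exact h2 y hy z hz hyz
  have h4 := Nat.le_findGreatest (P := P) (hPN _ h3) h3
  omega

/-- VOLUME OF NEIGHBOURHOODS from the Hausdorff dimension -/
theorem vol_of_dimH (K : Set (EuclideanSpace ℝ (Fin n))) (hb : Bornology.IsBounded K) {s : ℝ} (hs : 0 < s)
    (hd : ENNReal.ofReal s < dimH K) : ∃ c : ℝ, 0 < c ∧ ∀ δ : ℝ, 0 < δ → δ < 1 →
      c * δ ^ ((n : ℝ) - s) ≤ (volume (thickening δ K)).toReal := by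
  by_contra hcon
  push Not at hcon
  have hV : 0 < volume (ball (0 : EuclideanSpace ℝ (Fin n)) 1) := measure_ball_pos _ _ one_pos
  have hVt : volume (ball (0 : EuclideanSpace ℝ (Fin n)) 1) ≠ ∞ := measure_ball_lt_top.ne
  obtain ⟨V, hVe⟩ : ∃ V, V = (volume (ball (0 : EuclideanSpace ℝ (Fin n)) 1)).toReal := ⟨_, rfl⟩
  have hV0 : 0 < V := by rw [hVe]; exact ENNReal.toReal_pos hV.ne' hVt
  have hne : K.Nonempty := by
    by_contra h
    rw [not_nonempty_iff_eq_empty] at h
    rw [h, dimH_empty] at hd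
    exact absurd hd ENNReal.not_lt_zero
  choose δ h0 h1 h2 using fun k : ℕ => hcon (1 / ((k : ℝ) + 1)) (by positivity)
  choose F hF1 hF2 using fun k : ℕ => exists_net K hb (h0 k)
  -- the number of points
  have hcard : ∀ k, ((F k).card : ℝ) * ((δ k / 2) ^ n * V) ≤ 1 / ((k : ℝ) + 1) * δ k ^ ((n : ℝ) - s) := by
    intro k
    refine le_trans ?_ (h2 k).le
    have h3 := ENNReal.toReal_mono (hb.thickening).measure_lt_top.ne (hF2 k)
    rw [ENNReal.toReal_mul, ENNReal.toReal_mul, ENNReal.toReal_natCast, ENNReal.toReal_ofReal (by have := h0 k; positivity),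
      ← hVe] at h3
    exact h3
  have hpow : ∀ k, δ k ^ ((n : ℝ) - s) * δ k ^ s = δ k ^ n := by
    intro k
    rw [← Real.rpow_add (h0 k), sub_add_cancel, Real.rpow_natCast]
  have hcard2 : ∀ k, ((F k).card : ℝ) * δ k ^ s ≤ 2 ^ n / V * (1 / ((k : ℝ) + 1)) := by
    intro k
    have e1 := hcard k
    have e2 := Real.rpow_pos_of_pos (h0 k) ((n : ℝ) - s)
    rw [div_pow, ← hpow k] at e1
    have e3 : ((F k).card : ℝ) * (δ k ^ ((n : ℝ) - s) * δ k ^ s / 2 ^ n * V) =
        (((F k).card : ℝ) * δ k ^ s * (V / 2 ^ n)) * δ k ^ ((n : ℝ) - s) := by ring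
    rw [e3] at e1
    have e4 := le_of_mul_le_mul_right e1 e2
    rw [← le_div_iff₀ (by positivity)] at e4
    refine e4.trans (le_of_eq ?_)
    field_simp
  have hone : ∀ k, (1 : ℝ) ≤ (F k).card := by
    intro k
    have h3 : (F k).Nonempty := by
      obtain ⟨x, hx⟩ := hne
      have := hF1 k hx
      simp only [mem_iUnion] at this
      obtain ⟨y, hy, _⟩ := this
      exact ⟨y, hy⟩
    exact_mod_cast h3.card_pos
  have hlim0 : Tendsto (fun k : ℕ => 2 ^ n / V * (1 / ((k : ℝ) + 1))) atTop (𝓝 0) := by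
    have := (tendsto_one_div_add_atTop_nhds_zero_nat (𝕜 := ℝ)).const_mul (2 ^ n / V)
    rwa [mul_zero] at this
  have hds : Tendsto (fun k => δ k ^ s) atTop (𝓝 0) := by
    refine squeeze_zero (fun k => (Real.rpow_pos_of_pos (h0 k) s).le) (fun k => ?_) hlim0
    refine le_trans ?_ (hcard2 k)
    have := hone k
    have h4 := Real.rpow_pos_of_pos (h0 k) s
    nlinarith
  have hd0 : Tendsto δ atTop (𝓝 0) := by
    have h3 := hds.rpow_const (p := s⁻¹) (Or.inr (inv_nonneg.2 hs.le))
    rw [Real.zero_rpow (inv_ne_zero hs.ne')] at h3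
    refine h3.congr (fun k => ?_)
    rw [← Real.rpow_mul (h0 k).le, mul_inv_cancel₀ hs.ne', Real.rpow_one]
  -- the Hausdorff measure
  have hdim : μH[s] K = ∞ := by
    have := hausdorffMeasure_of_lt_dimH (s := K) (d := s.toNNReal) hd
    rwa [Real.coe_toNNReal _ hs.le] at this
  have hle := Measure.hausdorffMeasure_le_liminf_sum (β := ℕ) (ι := fun k => F k) s K (l := atTop)
    (fun k => ENNReal.ofReal (2 * δ k))
    (by
      have h3 : Tendsto (fun k => 2 * δ k) atTop (𝓝 0) := by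
        have := hd0.const_mul 2
        rwa [mul_zero] at this
      have h4 := ENNReal.tendsto_ofReal h3
      rwa [ENNReal.ofReal_zero] at h4)
    (fun k x => closedBall x.1 (δ k))
    (Eventually.of_forall fun k x => ediam_cb x.1 (h0 k).le)
    (Eventually.of_forall fun k x hx => by
      have := hF1 k hx
      simp only [mem_iUnion] at this
      obtain ⟨y, hy, h⟩ := this
      exact mem_iUnion.2 ⟨⟨y, hy⟩, h⟩)
  rw [hdim] at hle
  have hfin : liminf (fun k => ∑ i : F k, ediam (closedBall i.1 (δ k)) ^ s) atTop ≤ 0 := by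
    have h3 : ∀ k, ∑ i : F k, ediam (closedBall i.1 (δ k)) ^ s ≤ ENNReal.ofReal (2 ^ s * (2 ^ n / V * (1 / ((k : ℝ) + 1)))) := by
      intro k
      have h4 : ∀ i : F k, ediam (closedBall i.1 (δ k)) ^ s ≤ ENNReal.ofReal (2 ^ s * δ k ^ s) := by
        intro i
        rw [← Real.mul_rpow (by norm_num) (h0 k).le, ← ENNReal.ofReal_rpow_of_nonneg (by have := h0 k; positivity) hs.le]
        exact ENNReal.rpow_le_rpow (ediam_cb i.1 (h0 k).le) hs.le
      refine (Finset.sum_le_card_nsmul _ _ _ fun i _ => h4 i).trans ?_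
      rw [Finset.card_univ, Fintype.card_coe, nsmul_eq_mul, ← ENNReal.ofReal_natCast, ← ENNReal.ofReal_mul (by positivity)]
      apply ENNReal.ofReal_le_ofReal
      have h5 := hcard2 k
      have h6 : (0 : ℝ) < 2 ^ s := Real.rpow_pos_of_pos (by norm_num) s
      calc ((F k).card : ℝ) * (2 ^ s * δ k ^ s) = 2 ^ s * (((F k).card : ℝ) * δ k ^ s) := by ring
        _ ≤ _ := mul_le_mul_of_nonneg_left h5 h6.le
    have h7 : Tendsto (fun k : ℕ => ENNReal.ofReal (2 ^ s * (2 ^ n / V * (1 / ((k : ℝ) + 1))))) atTop (𝓝 0) := by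
      have := hlim0.const_mul (2 ^ s : ℝ)
      rw [mul_zero] at this
      have h8 := ENNReal.tendsto_ofReal this
      rwa [ENNReal.ofReal_zero] at h8
    calc liminf (fun k => ∑ i : F k, ediam (closedBall i.1 (δ k)) ^ s) atTop
        ≤ liminf (fun k : ℕ => ENNReal.ofReal (2 ^ s * (2 ^ n / V * (1 / ((k : ℝ) + 1))))) atTop :=
          liminf_le_liminf (Eventually.of_forall h3)
      _ = 0 := h7.liminf_eq
  exact absurd (hle.trans hfin) (by simp)

/-- LOWER MINKOWSKI DIMENSION `n` in the volume form from Hausdorff dimension `n` -/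
theorem vol_of_full (hn : 0 < n) (K : Set (EuclideanSpace ℝ (Fin n))) (hb : Bornology.IsBounded K) (hd : dimH K = n)
    (ε : ℝ) (hε : 0 < ε) : ∃ c : ℝ, 0 < c ∧ ∀ δ : ℝ, 0 < δ → δ < 1 →
      c * δ ^ ε ≤ (volume (thickening δ K)).toReal := by
  have hn' : (0 : ℝ) < n := by exact_mod_cast hn
  obtain ⟨s, hs⟩ : ∃ s, s = max ((n : ℝ) - ε) (n / 2) := ⟨_, rfl⟩
  have h1 : 0 < s := by rw [hs]; exact lt_max_of_lt_right (by positivity)
  have h2 : s < n := by rw [hs]; exact max_lt (by linarith) (by linarith)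
  have h3 : (n : ℝ) - s ≤ ε := by
    have : (n : ℝ) - ε ≤ s := by rw [hs]; exact le_max_left _ _
    linarith
  have h4 : ENNReal.ofReal s < dimH K := by
    rw [hd, ← ENNReal.ofReal_natCast]
    exact (ENNReal.ofReal_lt_ofReal_iff hn').2 h2
  obtain ⟨c, hc, h⟩ := vol_of_dimH K hb h1 h4
  refine ⟨c, hc, fun δ h0 h1' => le_trans ?_ (h δ h0 h1')⟩
  apply mul_le_mul_of_nonneg_left _ hc.le
  exact Real.rpow_le_rpow_of_exponent_ge h0 h1'.le h3

end

end Pool.Agent.Helper96.MD
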